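import Pool.Agent.H86R3.JB2

set_option autoImplicit false

open Filter Topology Set
open scoped ENNReal NNReal
open Pool.Agent.H86R3 Pool.Agent.H86R3.Wnc Pool.Agent.H86R3.JB

namespace Pool.Agent.Results.MP_4226b8_an.LInfty

/-- The JBW*-triple `C(βℕ)` (that is, the von Neumann algebra of bounded sequences) with the triple
product `{a, b, x} = a b* x`: on its bounded subsets the De Blasi measure is not dominated by any
multiple of `wk` or of `wck`. -/
theorem result :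
    ∃ L : C(StoneCech ℕ, ℂ) → C(StoneCech ℕ, ℂ) → C(StoneCech ℕ, ℂ) →L[ℂ] C(StoneCech ℕ, ℂ),
      (∀ a b x, L a b x = a * star b * x) ∧ IsJBWTriple C(StoneCech ℕ, ℂ) L ∧
      ∀ c : ℝ≥0, ∃ A : Set C(StoneCech ℕ, ℂ), A.Nonempty ∧ Bornology.IsBounded A ∧
        (c : ℝ≥0∞) * wk A < deBlasi A ∧ (c : ℝ≥0∞) * wck A < deBlasi A := by
  obtain ⟨ψ, hψ⟩ := exists_surj
  exact ⟨tri, fun _ _ _ => rfl, isJBWTriple, fun c => exists_bad (StoneCech ℕ) ψ hψ c⟩

end Pool.Agent.Results.MP_4226b8_an.LInfty
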